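import Pool.Agent.P.MP_d483fb_an.Z.Norm.Equiv

/-!
A sublinear subadditive majorant for subexponential growth, and equivariant densities.
-/

open MeasureTheory Filter Topology Set

set_option linter.unusedSectionVars false
set_option linter.unusedVariables false
set_option linter.deprecated false

noncomputable section

namespace Pool.Agent.P.MP_d483fb_an.Z.Norm

/-- a monotone, subadditive, `1`-Lipschitz and sublinear function -/
structure Sublin (ω : ℝ → ℝ) : Prop where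
  nonneg : ∀ r, 0 ≤ r → 0 ≤ ω r
  mono : Monotone ω
  add : ∀ r s, 0 ≤ r → 0 ≤ s → ω (r + s) ≤ ω r + ω s
  lip : ∀ r s, 0 ≤ s → ω (r + s) ≤ ω r + s
  small : ∀ ε : ℝ, 0 < ε → ∃ L, ∀ r, 0 ≤ r → ω r ≤ L + ε * r

theorem exists_omega {I : Type*} (a l : I → ℝ) (hl : ∀ i, 0 ≤ l i)
    (h : ∀ ε : ℝ, 0 < ε → ∃ L, ∀ i, a i ≤ Real.exp (L + ε * l i)) :
    ∃ ω, Sublin ω ∧ ∀ i, a i ≤ Real.exp (ω (l i)) := by
  have he : ∀ n : ℕ, (0 : ℝ) < 1 / ((n : ℝ) + 1) := fun n => by positivity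
  have he1 : ∀ n : ℕ, 1 / ((n : ℝ) + 1) ≤ 1 := fun n => by
    rw [div_le_one (by positivity)]; linarith [n.cast_nonneg (α := ℝ)]
  choose L0 hL0 using fun n : ℕ => h _ (he n)
  let t : ℝ → ℕ → ℝ := fun r n => max (L0 n) 0 + 1 / ((n : ℝ) + 1) * r
  have hb : ∀ r, BddBelow (range (t r)) := fun r => ⟨-|r|, by
    rintro _ ⟨n, rfl⟩
    have h1 : -|r| ≤ 1 / ((n : ℝ) + 1) * r := by
      nlinarith [he n, he1 n, neg_abs_le r, abs_nonneg r]
    exact h1.trans (le_add_of_nonneg_left (le_max_right _ _))⟩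
  have hle : ∀ r n, (⨅ n, t r n) ≤ t r n := fun r n => ciInf_le (hb r) n
  refine ⟨fun r => ⨅ n, t r n, ⟨fun r hr => le_ciInf fun n => ?_, fun r s hrs => ?_,
    fun r s hr hs => ?_, fun r s hs => ?_, fun ε hε => ?_⟩, fun i => ?_⟩
  · exact add_nonneg (le_max_right _ _) (mul_nonneg (he n).le hr)
  · refine le_ciInf fun n => (hle r n).trans ?_
    exact add_le_add le_rfl (mul_le_mul_of_nonneg_left hrs (he n).le)
  · refine le_ciInf_add_ciInf fun n m => ?_
    rcases le_total (1 / ((n : ℝ) + 1)) (1 / ((m : ℝ) + 1)) with h1 | h1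
    · refine (hle _ n).trans ?_
      have := mul_le_mul_of_nonneg_right h1 hs
      have := le_max_right (L0 m) 0
      simp only [t]
      nlinarith
    · refine (hle _ m).trans ?_
      have := mul_le_mul_of_nonneg_right h1 hr
      have := le_max_right (L0 n) 0
      simp only [t]
      nlinarith
  · rw [← sub_le_iff_le_add]
    refine le_ciInf fun n => ?_
    rw [sub_le_iff_le_add]
    refine (hle _ n).trans ?_
    have := mul_le_mul_of_nonneg_right (he1 n) hs
    simp only [t]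
    nlinarith
  · obtain ⟨n, hn⟩ := exists_nat_one_div_lt hε
    refine ⟨max (L0 n) 0, fun r hr => (hle r n).trans ?_⟩
    exact add_le_add le_rfl (mul_le_mul_of_nonneg_right hn.le hr)
  · rcases le_or_gt (a i) 0 with h1 | h1
    · exact h1.trans (Real.exp_pos _).le
    rw [← Real.log_le_iff_le_exp h1]
    refine le_ciInf fun n => ?_
    rw [Real.log_le_iff_le_exp h1]
    exact (hL0 n i).trans (Real.exp_le_exp.2 (add_le_add (le_max_left _ _) le_rfl))

namespace Sublin

variable {ω : ℝ → ℝ} (h : Sublin ω)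
include h

theorem lipschitz : LipschitzWith 1 ω := by
  refine LipschitzWith.of_le_add fun r s => ?_
  have h1 := h.lip s (dist r s) dist_nonneg
  refine (h.mono ?_).trans h1
  rw [Real.dist_eq]
  linarith [le_abs_self (r - s)]

theorem continuous : Continuous ω := h.lipschitz.continuous

theorem comp_mul {G : Type*} [Mul G] {len : G → ℝ} (h0 : ∀ g, 0 ≤ len g)
    (hm : ∀ g g', len (g * g') ≤ len g + len g') (g g' : G) :
    ω (len (g * g')) ≤ ω (len g) + ω (len g') :=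
  (h.mono (hm g g')).trans (h.add _ _ (h0 g) (h0 g'))

theorem comp_mul_lip {G : Type*} [Mul G] {len : G → ℝ} (h0 : ∀ g, 0 ≤ len g)
    (hm : ∀ g g', len (g * g') ≤ len g + len g') (g g' : G) :
    ω (len (g * g')) ≤ ω (len g) + len g' :=
  (h.mono (hm g g')).trans (h.lip _ _ (h0 g'))

/-- the multiplicative form of sublinearity -/
theorem exp_le (c : ℝ) (hc : 0 ≤ c) (ε : ℝ) (hε : 0 < ε) :
    ∃ C, ∀ x : ℝ, 1 ≤ x → Real.exp (c * ω (Real.log x)) ≤ C * x ^ ε := by
  obtain ⟨L, hL⟩ := h.small (ε / (c + 1)) (by positivity)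
  refine ⟨Real.exp (c * L), fun x hx => ?_⟩
  have h0 := Real.log_nonneg hx
  rw [Real.rpow_def_of_pos (by linarith), ← Real.exp_add, Real.exp_le_exp]
  have h1 : c * (ε / (c + 1)) ≤ ε := by
    rw [← mul_div_assoc, div_le_iff₀ (by positivity)]
    nlinarith
  calc c * ω (Real.log x) ≤ c * (L + ε / (c + 1) * Real.log x) := by gcongr; exact hL _ h0
    _ = c * L + c * (ε / (c + 1)) * Real.log x := by ring
    _ ≤ c * L + ε * Real.log x := by gcongr
    _ = _ := by ring

end Sublin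

variable {G Γ M k V : Type*} [Group G] [Group Γ] [NontriviallyNormedField k]
  [NormedAddCommGroup V] [NormedSpace k V]

/-- a cocycle of subexponential growth is bounded by a sublinear function of the length -/
theorem exists_ndata (ι : Γ →* G) (act : Γ → M → M) (A : Γ → M → V →L[k] V) (len : G → ℝ)
    (act_mul : ∀ γ δ m, act (γ * δ) m = act γ (act δ m)) (A_one : ∀ m v, A 1 m v = v)
    (A_mul : ∀ γ δ m v, A (γ * δ) m v = A γ (act δ m) (A δ m v)) (h0 : ∀ g, 0 ≤ len g)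
    (hm : ∀ g g', len (g * g') ≤ len g + len g')
    (h : ∀ ε : ℝ, 0 < ε → ∃ L, ∀ γ m, ‖A γ m‖ ≤ Real.exp (L + ε * len (ι γ))) :
    ∃ (ω : ℝ → ℝ) (D : NData G Γ M k V), Sublin ω ∧ D.ι = ι ∧ D.act = act ∧ D.A = A ∧
      D.W = fun g => ω (len g) := by
  obtain ⟨ω, hω, h1⟩ := exists_omega (fun i : Γ × M => ‖A i.1 i.2‖) (fun i => len (ι i.1))
    (fun i => h0 _) fun ε hε => (h ε hε).imp fun L hL i => hL i.1 i.2
  exact ⟨ω, ⟨ι, act, A, fun g => ω (len g), act_mul, A_one, A_mul, hω.comp_mul h0 hm,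
    fun γ m v => (A γ m).le_of_opNorm_le (h1 (γ, m)) v⟩, hω, rfl, rfl, rfl, rfl⟩

/-- a cocycle with norm at most exponential in the length -/
def NData.ofLinear (ι : Γ →* G) (act : Γ → M → M) (A : Γ → M → V →L[k] V) (len : G → ℝ) (L : ℝ)
    (act_mul : ∀ γ δ m, act (γ * δ) m = act γ (act δ m)) (A_one : ∀ m v, A 1 m v = v)
    (A_mul : ∀ γ δ m v, A (γ * δ) m v = A γ (act δ m) (A δ m v)) (hL : 0 ≤ L)
    (hm : ∀ g g', len (g * g') ≤ len g + len g')
    (h : ∀ γ m v, ‖A γ m v‖ ≤ Real.exp (L * (1 + len (ι γ))) * ‖v‖) : NData G Γ M k V where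
  ι := ι
  act := act
  A := A
  W g := L * (1 + len g)
  act_mul := act_mul
  A_one := A_one
  A_mul := A_mul
  W_mul g g' := by nlinarith [hm g g']
  bound := h

/-- A positive scalar cocycle, bounded by a subadditive function on `G`. -/
structure JData (G Γ M : Type*) [Group G] [Group Γ] where
  ι : Γ →* G
  act : Γ → M → M
  J : Γ → M → ℝ
  W : G → ℝ
  act_mul : ∀ γ δ m, act (γ * δ) m = act γ (act δ m)
  J_nonneg : ∀ γ m, 0 ≤ J γ m
  J_one : ∀ m, J 1 m = 1
  J_mul : ∀ γ δ m, J (γ * δ) m = J γ (act δ m) * J δ m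
  W_mul : ∀ g h, W (g * h) ≤ W g + W h
  bound : ∀ γ m, J γ m ≤ Real.exp (W (ι γ))

namespace JData

variable (D : JData G Γ M)

/-- the scalar cocycle as a linear cocycle -/
def toN : NData G Γ M ℝ ℝ where
  ι := D.ι
  act := D.act
  A γ m := D.J γ m • ContinuousLinearMap.id ℝ ℝ
  W := D.W
  act_mul := D.act_mul
  A_one m v := by simp [D.J_one]
  A_mul γ δ m v := by simp [D.J_mul, mul_assoc]
  W_mul := D.W_mul
  bound γ m v := by
    simp only [ContinuousLinearMap.smul_apply, ContinuousLinearMap.id_apply, norm_smul,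
      Real.norm_of_nonneg (D.J_nonneg γ m)]
    exact mul_le_mul_of_nonneg_right (D.bound γ m) (norm_nonneg v)

/-- the equivariant density -/
def dens (g : G) (m : M) : ℝ := D.toN.N g m 1

theorem dens_le (g : G) (m : M) : D.dens g m ≤ Real.exp (D.W g) := by
  have h := D.toN.N_le g m 1
  rwa [norm_one, mul_one] at h

theorem le_dens (g : G) (m : M) : Real.exp (-D.W g⁻¹) ≤ D.dens g m := by
  have h := D.toN.le_N g m 1
  rwa [norm_one, mul_one] at h

theorem dens_pos (g : G) (m : M) : 0 < D.dens g m := (Real.exp_pos _).trans_le (D.le_dens g m)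

theorem N_A (g : G) (m m' : M) (γ : Γ) :
    D.toN.N g m' (D.toN.A γ m 1) = D.dens g m' * D.J γ m := by
  have h : D.toN.A γ m 1 = D.J γ m • (1 : ℝ) := rfl
  rw [h, map_smul_eq_mul, Real.norm_of_nonneg (D.J_nonneg γ m), mul_comm, dens]

theorem dens_equiv (g : G) (m : M) (δ : Γ) :
    D.dens (g * (D.ι δ)⁻¹) (D.act δ m) * D.J δ m = D.dens g m := by
  rw [← N_A]
  exact D.toN.N_equiv g m 1 δ

theorem dens_mul_le (h g : G) (m : M) : D.dens (h * g) m ≤ Real.exp (D.W h) * D.dens g m :=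
  D.toN.N_mul_le h g m 1

/-- the main bound: if `h * g = g' * ι γ` the Jacobian for the new densities is at most
`exp (W h)` -/
theorem dens_J_le {h g g' : G} {γ : Γ} (hs : h * g = g' * D.ι γ) (m : M) :
    D.dens g' (D.act γ m) * D.J γ m ≤ Real.exp (D.W h) * D.dens g m := by
  have h1 := D.toN.N_A_le g g' γ m 1
  rw [N_A] at h1
  have h2 : g' * D.toN.ι γ * g⁻¹ = h := by
    change g' * D.ι γ * g⁻¹ = h
    rw [← hs, mul_inv_cancel_right]
  rwa [h2] at h1

theorem measurable_dens [Countable Γ] {Y : Type*} [MeasurableSpace Y] {s : Y → G} {p : Y → M}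
    (hs : ∀ γ, Measurable fun y => D.W (D.ι γ * (s y)⁻¹))
    (hp : ∀ γ, Measurable fun y => D.J γ (p y)) : Measurable fun y => D.dens (s y) (p y) := by
  refine D.toN.measurable_N (v := fun _ => 1) hs fun γ => ?_
  have h : (fun y => ‖D.toN.A γ (p y) 1‖) = fun y => ‖D.J γ (p y) * 1‖ := rfl
  rw [h]
  exact ((hp γ).mul_const 1).norm

end JData

/-- a scalar cocycle of subexponential growth -/
theorem exists_jdata (ι : Γ →* G) (act : Γ → M → M) (J : Γ → M → ℝ) (len : G → ℝ)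
    (act_mul : ∀ γ δ m, act (γ * δ) m = act γ (act δ m)) (J_nonneg : ∀ γ m, 0 ≤ J γ m)
    (J_one : ∀ m, J 1 m = 1) (J_mul : ∀ γ δ m, J (γ * δ) m = J γ (act δ m) * J δ m)
    (h0 : ∀ g, 0 ≤ len g) (hm : ∀ g g', len (g * g') ≤ len g + len g')
    (h : ∀ ε : ℝ, 0 < ε → ∃ L, ∀ γ m, J γ m ≤ Real.exp (L + ε * len (ι γ))) :
    ∃ (ω : ℝ → ℝ) (D : JData G Γ M), Sublin ω ∧ D.ι = ι ∧ D.act = act ∧ D.J = J ∧
      D.W = fun g => ω (len g) := by
  obtain ⟨ω, hω, h1⟩ := exists_omega (fun i : Γ × M => J i.1 i.2) (fun i => len (ι i.1))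
    (fun i => h0 _) fun ε hε => (h ε hε).imp fun L hL i => hL i.1 i.2
  exact ⟨ω, ⟨ι, act, J, fun g => ω (len g), act_mul, J_nonneg, J_one, J_mul, hω.comp_mul h0 hm,
    fun γ m => h1 (γ, m)⟩, hω, rfl, rfl, rfl, rfl⟩

end Pool.Agent.P.MP_d483fb_an.Z.Norm
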