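import Pool.Agent.P.MP_d483fb_an.Z.Norm.Frame

/-!
Equivariant norms.  A linear cocycle of a group `Γ` that maps to a group `G`, with norm at most
`exp (W (ι γ))` for a subadditive function `W` on `G`, carries a family of norms `N g m` on the
fibres of `G × M` which is `Γ`-equivariant and changes at most by the factor `exp (W h)` under left
translation by `h`.  In measurable frames every return cocycle has norm at most `C * exp (W h)`.
-/

open MeasureTheory Filter Topology Set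

set_option linter.unusedSectionVars false
set_option linter.unusedVariables false
set_option linter.deprecated false
set_option linter.dupNamespace false

noncomputable section

namespace Pool.Agent.P.MP_d483fb_an.Z.Norm

/-- A linear cocycle over an action of `Γ`, bounded by a subadditive function on `G`. -/
structure NData (G Γ M k V : Type*) [Group G] [Group Γ] [NontriviallyNormedField k]
    [NormedAddCommGroup V] [NormedSpace k V] where
  ι : Γ →* G
  act : Γ → M → M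
  A : Γ → M → V →L[k] V
  W : G → ℝ
  act_mul : ∀ γ δ m, act (γ * δ) m = act γ (act δ m)
  A_one : ∀ m v, A 1 m v = v
  A_mul : ∀ γ δ m v, A (γ * δ) m v = A γ (act δ m) (A δ m v)
  W_mul : ∀ g h, W (g * h) ≤ W g + W h
  bound : ∀ γ m v, ‖A γ m v‖ ≤ Real.exp (W (ι γ)) * ‖v‖

namespace NData

variable {G Γ M k V : Type*} [Group G] [Group Γ] [NontriviallyNormedField k]
  [NormedAddCommGroup V] [NormedSpace k V] (D : NData G Γ M k V)

/-- the terms of the supremum -/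
def tm (g : G) (m : M) (v : V) (γ : Γ) : ℝ := Real.exp (-D.W (D.ι γ * g⁻¹)) * ‖D.A γ m v‖

theorem tm_nonneg (g : G) (m : M) (v : V) (γ : Γ) : 0 ≤ D.tm g m v γ := by
  unfold tm; positivity

theorem tm_le (g : G) (m : M) (v : V) (γ : Γ) : D.tm g m v γ ≤ Real.exp (D.W g) * ‖v‖ := by
  have h1 := D.W_mul (D.ι γ * g⁻¹) g
  rw [inv_mul_cancel_right] at h1
  calc D.tm g m v γ ≤ Real.exp (-D.W (D.ι γ * g⁻¹)) * (Real.exp (D.W (D.ι γ)) * ‖v‖) :=
        mul_le_mul_of_nonneg_left (D.bound γ m v) (Real.exp_pos _).le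
    _ = Real.exp (-D.W (D.ι γ * g⁻¹) + D.W (D.ι γ)) * ‖v‖ := by rw [Real.exp_add, mul_assoc]
    _ ≤ _ := by gcongr; linarith

theorem bdd (g : G) (m : M) (v : V) : BddAbove (range (D.tm g m v)) :=
  ⟨_, by rintro _ ⟨γ, rfl⟩; exact D.tm_le g m v γ⟩

/-- the equivariant norm -/
def N (g : G) (m : M) : Seminorm k V :=
  Seminorm.of (fun v => ⨆ γ, D.tm g m v γ)
    (fun u v => ciSup_le fun γ => by
      refine le_trans ?_ (add_le_add (le_ciSup (D.bdd g m u) γ) (le_ciSup (D.bdd g m v) γ))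
      unfold tm
      rw [← mul_add, map_add]
      exact mul_le_mul_of_nonneg_left (norm_add_le _ _) (Real.exp_pos _).le)
    (fun c v => by
      rw [Real.mul_iSup_of_nonneg (norm_nonneg c)]
      congr 1
      ext γ
      unfold tm
      rw [map_smul, norm_smul]
      ring)

theorem N_apply (g : G) (m : M) (v : V) : D.N g m v = ⨆ γ, D.tm g m v γ := rfl

theorem tm_le_N (g : G) (m : M) (v : V) (γ : Γ) : D.tm g m v γ ≤ D.N g m v :=
  le_ciSup (D.bdd g m v) γ

theorem N_le (g : G) (m : M) (v : V) : D.N g m v ≤ Real.exp (D.W g) * ‖v‖ :=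
  ciSup_le (D.tm_le g m v)

theorem le_N (g : G) (m : M) (v : V) : Real.exp (-D.W g⁻¹) * ‖v‖ ≤ D.N g m v := by
  have h := D.tm_le_N g m v 1
  unfold tm at h
  rwa [map_one, one_mul, D.A_one] at h

theorem norm_le_N (g : G) (m : M) (v : V) : ‖v‖ ≤ Real.exp (D.W g⁻¹) * D.N g m v := by
  calc ‖v‖ = Real.exp (D.W g⁻¹) * (Real.exp (-D.W g⁻¹) * ‖v‖) := by
        rw [← mul_assoc, ← Real.exp_add, add_neg_cancel, Real.exp_zero, one_mul]
    _ ≤ _ := mul_le_mul_of_nonneg_left (D.le_N g m v) (Real.exp_pos _).le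

theorem N_equi (g : G) (m : M) : Equi (D.N g m) :=
  ⟨_, _, Real.exp_pos _, fun v => ⟨D.le_N g m v, D.N_le g m v⟩⟩

/-- equivariance -/
theorem N_equiv (g : G) (m : M) (v : V) (δ : Γ) :
    D.N (g * (D.ι δ)⁻¹) (D.act δ m) (D.A δ m v) = D.N g m v := by
  rw [N_apply, N_apply, ← (Equiv.mulRight δ).iSup_comp (g := D.tm g m v)]
  congr 1
  ext γ
  simp only [tm, Equiv.coe_mulRight, D.A_mul, map_mul, mul_inv_rev, inv_inv, mul_assoc]

/-- comparison of the norms at two points of `G` -/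
theorem N_le_of {g g' : G} {t : ℝ} (h : ∀ γ, D.W (D.ι γ * g⁻¹) ≤ D.W (D.ι γ * g'⁻¹) + t) (m : M)
    (v : V) : D.N g' m v ≤ Real.exp t * D.N g m v := by
  refine ciSup_le fun γ => le_trans ?_
    (mul_le_mul_of_nonneg_left (D.tm_le_N g m v γ) (Real.exp_pos t).le)
  unfold tm
  rw [← mul_assoc, ← Real.exp_add]
  gcongr
  linarith [h γ]

/-- left translation changes the norm by at most `exp (W h)` -/
theorem N_mul_le (h g : G) (m : M) (v : V) : D.N (h * g) m v ≤ Real.exp (D.W h) * D.N g m v := by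
  refine D.N_le_of (fun γ => ?_) m v
  have h1 := D.W_mul (D.ι γ * (h * g)⁻¹) h
  have h2 : D.ι γ * (h * g)⁻¹ * h = D.ι γ * g⁻¹ := by group
  rwa [h2] at h1

/-- the norm of the cocycle between the fibres over `(g, m)` and `(g', γ m)` -/
theorem N_A_le (g g' : G) (γ : Γ) (m : M) (v : V) :
    D.N g' (D.act γ m) (D.A γ m v) ≤ Real.exp (D.W (g' * D.ι γ * g⁻¹)) * D.N g m v := by
  have h1 := D.N_equiv (g' * D.ι γ) m v γ
  rw [mul_inv_cancel_right] at h1
  have h2 := D.N_mul_le (g' * D.ι γ * g⁻¹) g m v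
  rw [inv_mul_cancel_right] at h2
  rwa [h1]

theorem measurable_N [Countable Γ] {Y : Type*} [MeasurableSpace Y] {s : Y → G} {p : Y → M}
    {v : Y → V} (hs : ∀ γ, Measurable fun y => D.W (D.ι γ * (s y)⁻¹))
    (hp : ∀ γ, Measurable fun y => ‖D.A γ (p y) (v y)‖) :
    Measurable fun y => D.N (s y) (p y) (v y) :=
  Measurable.iSup fun γ => (hs γ).neg.exp.mul (hp γ)

/-- continuity of the norm when the bound has room to spare -/
theorem continuous_N {Y : Type*} [TopologicalSpace Y] {s : Y → G} {p : Y → M} {v : Y → V}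
    (hs : ∀ γ, Continuous fun y => D.W (D.ι γ * (s y)⁻¹)) (hs1 : Continuous fun y => D.W (s y))
    (hp : ∀ γ, Continuous fun y => ‖D.A γ (p y) (v y)‖) (hv : Continuous fun y => ‖v y‖)
    {W' : Γ → ℝ} (hb : ∀ γ m u, ‖D.A γ m u‖ ≤ Real.exp (W' γ) * ‖u‖)
    (hW : ∀ R : ℝ, {γ | D.W (D.ι γ) - W' γ ≤ R}.Finite) :
    Continuous fun y => D.N (s y) (p y) (v y) := by
  have ht : ∀ γ, Continuous fun y => D.tm (s y) (p y) (v y) γ := fun γ =>
    (hs γ).neg.rexp.mul (hp γ)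
  refine continuous_iff_lower_upperSemicontinuous.2 ⟨?_, fun y c hc => ?_⟩
  · exact lowerSemicontinuous_ciSup (fun y => D.bdd _ _ _) fun γ => (ht γ).lowerSemicontinuous
  obtain ⟨c', hc1, hc2⟩ := exists_between hc
  have hc0 : 0 < c' := (apply_nonneg _ _).trans_lt hc1
  set B : ℝ := Real.exp (D.W (s y)) * ‖v y‖ + 1 with hB
  have hB0 : 0 < B := by positivity
  have h1 : ∀ᶠ z in 𝓝 y, Real.exp (D.W (s z)) * ‖v z‖ < B :=
    (hs1.rexp.mul hv).continuousAt.eventually_lt_const (by simp [hB])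
  have h2 : ∀ᶠ z in 𝓝 y, ∀ γ ∈ {γ | D.W (D.ι γ) - W' γ ≤ Real.log (B / c')},
      D.tm (s z) (p z) (v z) γ < c' :=
    (eventually_all_finite (hW _)).2 fun γ _ =>
      (ht γ).continuousAt.eventually_lt_const ((D.tm_le_N _ _ _ γ).trans_lt hc1)
  filter_upwards [h1, h2] with z hz1 hz2
  refine lt_of_le_of_lt (ciSup_le fun γ => ?_) hc2
  by_cases hγ : D.W (D.ι γ) - W' γ ≤ Real.log (B / c')
  · exact (hz2 γ hγ).le
  have h3 := D.W_mul (D.ι γ * (s z)⁻¹) (s z)
  rw [inv_mul_cancel_right] at h3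
  calc D.tm (s z) (p z) (v z) γ
      ≤ Real.exp (-D.W (D.ι γ * (s z)⁻¹)) * (Real.exp (W' γ) * ‖v z‖) :=
        mul_le_mul_of_nonneg_left (hb γ _ _) (Real.exp_pos _).le
    _ = Real.exp (-D.W (D.ι γ * (s z)⁻¹) + W' γ) * ‖v z‖ := by rw [Real.exp_add, mul_assoc]
    _ ≤ Real.exp (-Real.log (B / c') + D.W (s z)) * ‖v z‖ :=
        mul_le_mul_of_nonneg_right (Real.exp_le_exp.2 (by linarith)) (norm_nonneg _)
    _ = c' / B * (Real.exp (D.W (s z)) * ‖v z‖) := by
        rw [Real.exp_add, Real.exp_neg, Real.exp_log (by positivity), inv_div, mul_assoc]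
    _ ≤ c' / B * B := by gcongr
    _ = c' := by field_simp

end NData

variable (k V : Type*) [NontriviallyNormedField k] [LocallyCompactSpace k] [NormedAddCommGroup V]
  [NormedSpace k V] [FiniteDimensional k V]

/-- A measurable frame `P` over the points `(s y, p y)` of `G × M` adapted to the norms `N`. -/
structure Frame {G Γ M k V : Type*} [Group G] [Group Γ] [NontriviallyNormedField k]
    [NormedAddCommGroup V] [NormedSpace k V] (D : NData G Γ M k V) {Y : Type*} [MeasurableSpace Y]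
    (s : Y → G) (p : Y → M) where
  C : ℝ
  F : ℕ → V ≃L[k] V
  j : Y → ℕ
  one_le : 1 ≤ C
  meas : Measurable j
  lower : ∀ y v, D.N (s y) (p y) v ≤ C * ‖F (j y) v‖
  upper : ∀ y v, ‖F (j y) v‖ ≤ C * D.N (s y) (p y) v

variable {k V} {G Γ M : Type*} [Group G] [Group Γ] {D : NData G Γ M k V}

theorem NData.exists_frame (D : NData G Γ M k V) [Countable Γ] {Y : Type} [MeasurableSpace Y]
    {s : Y → G} {p : Y → M} (hs : ∀ γ, Measurable fun y => D.W (D.ι γ * (s y)⁻¹))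
    (hp : ∀ γ v, Measurable fun y => ‖D.A γ (p y) v‖) : Nonempty (Frame D s p) := by
  obtain ⟨C, F, hC, h⟩ := Norm.exists_frame k V
  obtain ⟨j, hj, h1⟩ := h Y (fun y => D.N (s y) (p y)) (fun y => D.N_equi _ _)
    fun v => D.measurable_N hs fun γ => hp γ v
  exact ⟨⟨C, F, j, hC, hj, fun y v => (h1 y v).1, fun y v => (h1 y v).2⟩⟩

namespace Frame

variable {Y : Type*} [MeasurableSpace Y] {s : Y → G} {p : Y → M} (Φ : Frame D s p)

/-- the frame -/
def P (y : Y) : V →L[k] V := Φ.F (Φ.j y)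

/-- the inverse frame -/
def Q (y : Y) : V →L[k] V := (Φ.F (Φ.j y)).symm

@[simp] theorem P_Q (y : Y) (v : V) : Φ.P y (Φ.Q y v) = v := (Φ.F (Φ.j y)).apply_symm_apply v

@[simp] theorem Q_P (y : Y) (v : V) : Φ.Q y (Φ.P y v) = v := (Φ.F (Φ.j y)).symm_apply_apply v

theorem measP : StronglyMeasurable Φ.P :=
  (StronglyMeasurable.of_discrete (f := fun n => (Φ.F n : V →L[k] V))).comp_measurable Φ.meas

theorem measQ : StronglyMeasurable Φ.Q :=
  (StronglyMeasurable.of_discrete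
    (f := fun n => ((Φ.F n).symm : V →L[k] V))).comp_measurable Φ.meas

theorem N_le_P (y : Y) (v : V) : D.N (s y) (p y) v ≤ Φ.C * ‖Φ.P y v‖ := Φ.lower y v

theorem P_le_N (y : Y) (v : V) : ‖Φ.P y v‖ ≤ Φ.C * D.N (s y) (p y) v := Φ.upper y v

theorem N_Q_le (y : Y) (v : V) : D.N (s y) (p y) (Φ.Q y v) ≤ Φ.C * ‖v‖ := by
  simpa using Φ.N_le_P y (Φ.Q y v)

theorem C_pos : 0 < Φ.C := one_pos.trans_le Φ.one_le

theorem P_le (y : Y) (v : V) : ‖Φ.P y v‖ ≤ Φ.C * Real.exp (D.W (s y)) * ‖v‖ := by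
  rw [mul_assoc]
  exact (Φ.P_le_N y v).trans (mul_le_mul_of_nonneg_left (D.N_le _ _ _) Φ.C_pos.le)

theorem Q_le (y : Y) (v : V) : ‖Φ.Q y v‖ ≤ Φ.C * Real.exp (D.W (s y)⁻¹) * ‖v‖ := by
  calc ‖Φ.Q y v‖ ≤ _ := D.norm_le_N (s y) (p y) _
    _ ≤ Real.exp (D.W (s y)⁻¹) * (Φ.C * ‖v‖) :=
        mul_le_mul_of_nonneg_left (Φ.N_Q_le y v) (Real.exp_pos _).le
    _ = _ := by ring

/-- the cocycle read in the frames at `y` and `y'` -/
def B (y' : Y) (γ : Γ) (y : Y) : V →L[k] V := Φ.P y' ∘L D.A γ (p y) ∘L Φ.Q y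

theorem B_apply (y' : Y) (γ : Γ) (y : Y) (v : V) :
    Φ.B y' γ y v = Φ.P y' (D.A γ (p y) (Φ.Q y v)) := rfl

theorem B_one (y : Y) (v : V) : Φ.B y 1 y v = v := by rw [B_apply, D.A_one, P_Q]

theorem B_mul {y'' y' y : Y} {γ δ : Γ} (h : p y' = D.act δ (p y)) (v : V) :
    Φ.B y'' (γ * δ) y v = Φ.B y'' γ y' (Φ.B y' δ y v) := by
  simp only [B_apply, Q_P, D.A_mul, h]

/-- the main bound: if `h * s y = s y' * ι γ` the norm is at most `C ^ 2 * exp (W h)` -/
theorem B_le {y' y : Y} {γ : Γ} {h : G} (hp : p y' = D.act γ (p y)) (hs : h * s y = s y' * D.ι γ)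
    (v : V) : ‖Φ.B y' γ y v‖ ≤ Φ.C ^ 2 * Real.exp (D.W h) * ‖v‖ := by
  have h1 := D.N_A_le (s y) (s y') γ (p y) (Φ.Q y v)
  rw [← hs, mul_inv_cancel_right, ← hp] at h1
  have hC := Φ.C_pos
  calc ‖Φ.B y' γ y v‖ ≤ Φ.C * D.N (s y') (p y') (D.A γ (p y) (Φ.Q y v)) := Φ.P_le_N y' _
    _ ≤ Φ.C * (Real.exp (D.W h) * D.N (s y) (p y) (Φ.Q y v)) := by gcongr
    _ ≤ Φ.C * (Real.exp (D.W h) * (Φ.C * ‖v‖)) := by gcongr; exact Φ.N_Q_le y v
    _ = _ := by ring

theorem B_le_exp {y' y : Y} {γ : Γ} {h : G} (hp : p y' = D.act γ (p y))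
    (hs : h * s y = s y' * D.ι γ) (v : V) :
    ‖Φ.B y' γ y v‖ ≤ Real.exp (2 * Real.log Φ.C + D.W h) * ‖v‖ := by
  rw [Real.exp_add, two_mul, Real.exp_add, Real.exp_log Φ.C_pos, ← sq]
  exact Φ.B_le hp hs v

theorem norm_B_le {y' y : Y} {γ : Γ} {h : G} (hp : p y' = D.act γ (p y))
    (hs : h * s y = s y' * D.ι γ) : ‖Φ.B y' γ y‖ ≤ Φ.C ^ 2 * Real.exp (D.W h) :=
  ContinuousLinearMap.opNorm_le_bound _ (by positivity) (Φ.B_le hp hs)

/-- measurability of the return cocycle -/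
theorem measB [Countable Γ] [MeasurableSpace Γ] [MeasurableSingletonClass Γ] {Z : Type*}
    [MeasurableSpace Z] {f' f : Z → Y} {c : Z → Γ} (hf' : Measurable f') (hf : Measurable f)
    (hc : Measurable c) (hA : ∀ γ, StronglyMeasurable fun y => D.A γ (p y)) :
    StronglyMeasurable fun z => Φ.B (f' z) (c z) (f z) := by
  have : ProperSpace k := ProperSpace.of_locallyCompactSpace k
  have : ProperSpace (V →L[k] V) := FiniteDimensional.proper k _
  borelize (V →L[k] V)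
  have h1 : Measurable fun q : Y × Γ => D.A q.2 (p q.1) :=
    measurable_from_prod_countable_left fun γ => (hA γ).measurable
  have h2 : StronglyMeasurable fun z => D.A (c z) (p (f z)) :=
    (h1.comp (hf.prodMk hc)).stronglyMeasurable
  exact (Φ.measP.comp_measurable hf').mul (h2.mul (Φ.measQ.comp_measurable hf))

end Frame

end Pool.Agent.P.MP_d483fb_an.Z.Norm
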