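import Mathlib

/-!
Every norm on a finite dimensional space over a locally compact field is, up to a constant that
depends only on the space, the pull back of the given norm by a linear automorphism; for a
measurable family of norms the automorphism is a measurable function with countable range.
-/

open MeasureTheory Filter Topology Set Module

set_option linter.unusedSectionVars false
set_option linter.unusedVariables false
set_option linter.deprecated false

noncomputable section

namespace Pool.Agent.P.MP_d483fb_an.Z.Norm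

variable {k V : Type*} [NontriviallyNormedField k] [LocallyCompactSpace k] [NormedAddCommGroup V]
  [NormedSpace k V] [FiniteDimensional k V]

/-- a seminorm which is equivalent to the norm -/
def Equi (p : Seminorm k V) : Prop :=
  ∃ a b : ℝ, 0 < a ∧ ∀ v, a * ‖v‖ ≤ p v ∧ p v ≤ b * ‖v‖

theorem Equi.continuous {p : Seminorm k V} (h : Equi p) : Continuous p := by
  obtain ⟨a, b, ha, hab⟩ := h
  have hl : LipschitzWith (Real.toNNReal b) p := by
    refine LipschitzWith.of_dist_le' fun u v => ?_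
    rw [Real.dist_eq, dist_eq_norm]
    exact (abs_sub_map_le_sub p u v).trans (hab _).2
  exact hl.continuous

/-- a basis in the unit ball of `p` whose coordinate forms are bounded by a multiple of `p` -/
theorem exists_auerbach {ι : Type*} [Fintype ι] [DecidableEq ι] (b : Basis ι k V) {c : k}
    (hc : 1 < ‖c‖) {p : Seminorm k V} (h : Equi p) :
    ∃ e : Basis ι k V, (∀ i, p (e i) ≤ 1) ∧ ∀ i v, ‖e.coord i v‖ ≤ ‖c‖ * p v := by
  have : ProperSpace k := ProperSpace.of_locallyCompactSpace k
  have : ProperSpace V := FiniteDimensional.proper k V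
  have hpc := h.continuous
  obtain ⟨a, b', ha, hab⟩ := h
  have hB : IsCompact {v : V | p v ≤ 1} := by
    refine Metric.isCompact_of_isClosed_isBounded (isClosed_le hpc continuous_const) ?_
    refine (Metric.isBounded_closedBall (x := (0 : V)) (r := a⁻¹)).subset fun v hv => ?_
    rw [mem_closedBall_zero_iff]
    have h1 : a * ‖v‖ ≤ 1 := (hab v).1.trans hv
    calc ‖v‖ = a⁻¹ * (a * ‖v‖) := by field_simp
      _ ≤ a⁻¹ * 1 := by gcongr
      _ = a⁻¹ := mul_one _
  have hK : IsCompact (Set.pi univ fun _ : ι => {v : V | p v ≤ 1}) := isCompact_univ_pi fun _ => hB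
  have hdc : Continuous fun v : ι → V => ‖b.det v‖ := by
    refine Continuous.norm ?_
    change Continuous fun v : ι → V => Matrix.det (b.toMatrix v)
    refine Continuous.matrix_det (continuous_pi fun i => continuous_pi fun j => ?_)
    exact (LinearMap.continuous_of_finiteDimensional (b.coord i)).comp (continuous_apply j)
  obtain ⟨v, hv, hmax⟩ := hK.exists_isMaxOn ⟨0, fun i _ => by simp⟩ hdc.continuousOn
  have hpos : ∀ x : V, x ≠ 0 → p x ≠ 0 := fun x hx =>
    ((mul_pos ha (norm_pos_iff.2 hx)).trans_le (hab x).1).ne'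
  have hdet : b.det v ≠ 0 := by
    choose d hd hd1 _ using fun i => p.rescale_to_shell hc one_pos (hpos _ (b.ne_zero i))
    have h1 : (fun i => d i • b i) ∈ Set.pi univ fun _ : ι => {v : V | p v ≤ 1} :=
      fun i _ => (hd1 i).le
    have h2 := hmax h1
    simp only [mem_setOf_eq] at h2
    have h3 : b.det (fun i => d i • b i) = ∏ i, d i := by
      rw [AlternatingMap.map_smul_univ, b.det_self, smul_eq_mul, mul_one]
    intro h0
    rw [h0, h3, norm_zero, norm_le_zero_iff] at h2
    exact Finset.prod_ne_zero_iff.2 (fun i _ => hd i) h2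
  obtain ⟨hli, hsp⟩ := (b.is_basis_iff_det (v := v)).2 (isUnit_iff_ne_zero.2 hdet)
  refine ⟨Basis.mk hli hsp.ge, fun i => by simpa using hv i (mem_univ i), fun i x => ?_⟩
  have h1 : ∀ y, p y ≤ 1 → ‖(Basis.mk hli hsp.ge).coord i y‖ ≤ 1 := by
    intro y hy
    have h2 := congrArg (fun f => f y) (b.det_smul_mk_coord_eq_det_update hli hsp.ge i)
    simp only [LinearMap.smul_apply, smul_eq_mul, MultilinearMap.toLinearMap_apply] at h2
    have h3 : Function.update v i y ∈ Set.pi univ fun _ : ι => {v : V | p v ≤ 1} := by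
      intro j _
      rcases eq_or_ne j i with rfl | hj
      · simpa using hy
      · rw [Function.update_of_ne hj]; exact hv j (mem_univ j)
    have h4 : ‖b.det (Function.update v i y)‖ ≤ ‖b.det v‖ := hmax h3
    have h5 : b.det (Function.update v i y) = b.det v * (Basis.mk hli hsp.ge).coord i y := h2.symm
    rw [h5, norm_mul] at h4
    exact (mul_le_iff_le_one_right (norm_pos_iff.2 hdet)).1 h4
  rcases eq_or_ne x 0 with rfl | hx
  · rw [map_zero, map_zero, norm_zero, mul_zero]
  obtain ⟨d, hd, hd1, -, hd2⟩ := p.rescale_to_shell hc one_pos (hpos x hx)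
  have h2 := h1 _ hd1.le
  rw [map_smul, smul_eq_mul, norm_mul] at h2
  have h3 : 0 < ‖d‖ := norm_pos_iff.2 hd
  calc ‖(Basis.mk hli hsp.ge).coord i x‖ = ‖d‖⁻¹ * (‖d‖ * ‖(Basis.mk hli hsp.ge).coord i x‖) := by
        field_simp
    _ ≤ ‖d‖⁻¹ * 1 := by gcongr
    _ ≤ ‖c‖ * p x := by simpa using hd2

variable (k V) in
/-- every norm is uniformly equivalent to a pull back of the given norm -/
theorem exists_equiv : ∃ C : ℝ, 1 ≤ C ∧ ∀ p : Seminorm k V, Equi p →
    ∃ P : V ≃L[k] V, ∀ v, p v ≤ C * ‖P v‖ ∧ ‖P v‖ ≤ C * p v := by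
  classical
  have : ProperSpace k := ProperSpace.of_locallyCompactSpace k
  let b := Module.finBasis k V
  obtain ⟨c, hc⟩ := NormedField.exists_one_lt_norm k
  let C1 : ℝ := ∑ i, ‖LinearMap.toContinuousLinearMap (b.coord i)‖
  let C2 : ℝ := ∑ i, ‖c‖ * ‖b i‖
  have h1 : 0 ≤ C1 := Finset.sum_nonneg fun _ _ => norm_nonneg _
  have h2 : 0 ≤ C2 := Finset.sum_nonneg fun _ _ => by positivity
  refine ⟨1 + C1 + C2, by linarith, fun p hp => ?_⟩
  obtain ⟨e, he1, he2⟩ := exists_auerbach b hc hp
  let P : V ≃ₗ[k] V := e.equiv b (Equiv.refl _)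
  have hP : ∀ v, P v = ∑ i, e.coord i v • b i := by
    intro v
    conv_lhs => rw [← e.sum_repr v, map_sum]
    refine Finset.sum_congr rfl fun i _ => ?_
    rw [map_smul, Basis.equiv_apply]
    rfl
  have hP2 : ∀ v i, b.coord i (P v) = e.coord i v := by
    intro v i
    rw [hP]
    simp [Finsupp.single_apply]
  refine ⟨P.toContinuousLinearEquiv, fun v => ⟨?_, ?_⟩⟩
  · change p v ≤ _ * ‖P v‖
    calc p v = p (∑ i, e.coord i v • e i) := by
          congr 1
          exact (e.sum_repr v).symm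
      _ ≤ ∑ i, p (e.coord i v • e i) := by
          refine Finset.le_sum_of_subadditive p (map_zero p).le (map_add_le_add p) _ _
      _ ≤ ∑ i, ‖LinearMap.toContinuousLinearMap (b.coord i)‖ * ‖P v‖ := by
          refine Finset.sum_le_sum fun i _ => ?_
          rw [map_smul_eq_mul, ← hP2]
          calc ‖b.coord i (P v)‖ * p (e i) ≤ ‖b.coord i (P v)‖ * 1 := by gcongr; exact he1 i
            _ = ‖LinearMap.toContinuousLinearMap (b.coord i) (P v)‖ := by simp
            _ ≤ _ := ContinuousLinearMap.le_opNorm _ _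
      _ = C1 * ‖P v‖ := by rw [Finset.sum_mul]
      _ ≤ _ := by gcongr; linarith
  · change ‖P v‖ ≤ _
    calc ‖P v‖ = ‖∑ i, e.coord i v • b i‖ := by rw [hP]
      _ ≤ ∑ i, ‖e.coord i v • b i‖ := norm_sum_le _ _
      _ ≤ ∑ i, ‖c‖ * ‖b i‖ * p v := by
          refine Finset.sum_le_sum fun i _ => ?_
          rw [norm_smul]
          calc ‖e.coord i v‖ * ‖b i‖ ≤ ‖c‖ * p v * ‖b i‖ := by gcongr; exact he2 i v
            _ = _ := by ring
      _ = C2 * p v := by rw [Finset.sum_mul]
      _ ≤ _ := by gcongr; linarith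

variable (k V) in
/-- countably many automorphisms suffice -/
theorem exists_seq_equiv : ∃ (C : ℝ) (F : ℕ → V ≃L[k] V), 1 ≤ C ∧ ∀ p : Seminorm k V, Equi p →
    ∃ n, ∀ v, p v ≤ C * ‖F n v‖ ∧ ‖F n v‖ ≤ C * p v := by
  classical
  have : ProperSpace k := ProperSpace.of_locallyCompactSpace k
  have : ProperSpace (V →L[k] V) := FiniteDimensional.proper k _
  obtain ⟨C, hC, h⟩ := exists_equiv k V
  obtain ⟨T, hT⟩ := TopologicalSpace.exists_dense_seq (V →L[k] V)
  let F : ℕ → V ≃L[k] V := fun n =>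
    if hn : Function.Injective (T n) then
      (LinearEquiv.ofInjectiveEndo (T n : V →ₗ[k] V) hn).toContinuousLinearEquiv
    else ContinuousLinearEquiv.refl k V
  refine ⟨2 * C, F, by linarith, fun p hp => ?_⟩
  obtain ⟨P, hP⟩ := h p hp
  obtain ⟨a, b, ha, hab⟩ := hp
  have hC0 : 0 < C := by linarith
  obtain ⟨n, hn⟩ := hT.exists_dist_lt (P : V →L[k] V) (ε := a / (2 * C)) (by positivity)
  have h1 : ∀ v, ‖P v - T n v‖ ≤ p v / (2 * C) := by
    intro v
    calc ‖P v - T n v‖ = ‖((P : V →L[k] V) - T n) v‖ := by simp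
      _ ≤ ‖(P : V →L[k] V) - T n‖ * ‖v‖ := ContinuousLinearMap.le_opNorm _ _
      _ ≤ a / (2 * C) * ‖v‖ := by gcongr; rw [← dist_eq_norm]; exact hn.le
      _ = a * ‖v‖ / (2 * C) := by ring
      _ ≤ _ := by gcongr; exact (hab v).1
  have h2 : ∀ v, p v ≤ 2 * C * ‖T n v‖ := by
    intro v
    have h3 : ‖P v‖ ≤ ‖T n v‖ + p v / (2 * C) := by
      have := norm_sub_norm_le (P v) (T n v)
      linarith [h1 v]
    have h4 : C * ‖P v‖ ≤ C * ‖T n v‖ + p v / 2 := by
      calc C * ‖P v‖ ≤ C * (‖T n v‖ + p v / (2 * C)) := by gcongr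
        _ = _ := by field_simp
    linarith [(hP v).1]
  have h3 : ∀ v, ‖T n v‖ ≤ 2 * C * p v := by
    intro v
    have h4 : ‖T n v‖ ≤ ‖P v‖ + p v / (2 * C) := by
      have := norm_sub_norm_le (T n v) (P v)
      rw [norm_sub_rev] at this
      linarith [h1 v]
    have h5 : p v / (2 * C) ≤ C * p v := by
      rw [div_le_iff₀ (by positivity)]
      have : 0 ≤ p v := apply_nonneg p v
      have h6 : 1 ≤ C * (2 * C) := by nlinarith
      nlinarith
    linarith [(hP v).2]
  have hinj : Function.Injective (T n) := by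
    refine (injective_iff_map_eq_zero (T n)).2 fun v hv => ?_
    have h4 := (hab v).1.trans (h2 v)
    rw [hv, norm_zero, mul_zero] at h4
    have h5 : ‖v‖ ≤ 0 := by
      by_contra h6
      exact absurd (mul_pos ha (not_le.1 h6)) (not_lt.2 h4)
    exact norm_le_zero_iff.1 h5
  have hF : ∀ v, F n v = T n v := by
    intro v
    simp only [F, dif_pos hinj]
    rfl
  exact ⟨n, fun v => by rw [hF]; exact ⟨h2 v, h3 v⟩⟩

variable (k V) in
/-- measurable frames for a measurable family of norms -/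
theorem exists_frame : ∃ (C : ℝ) (F : ℕ → V ≃L[k] V), 1 ≤ C ∧
    ∀ (Y : Type) [MeasurableSpace Y] (p : Y → Seminorm k V), (∀ y, Equi (p y)) →
      (∀ v, Measurable fun y => p y v) →
      ∃ j : Y → ℕ, Measurable j ∧ ∀ y v, p y v ≤ C * ‖F (j y) v‖ ∧ ‖F (j y) v‖ ≤ C * p y v := by
  classical
  have : ProperSpace k := ProperSpace.of_locallyCompactSpace k
  have : ProperSpace V := FiniteDimensional.proper k V
  obtain ⟨C, F, hC, h⟩ := exists_seq_equiv k V
  refine ⟨C, F, hC, fun Y _ p hp hm => ?_⟩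
  obtain ⟨u, hu⟩ := TopologicalSpace.exists_dense_seq V
  have h1 : ∀ y, ∃ n, ∀ v, p y v ≤ C * ‖F n v‖ ∧ ‖F n v‖ ≤ C * p y v := fun y => h _ (hp y)
  refine ⟨fun y => Nat.find (h1 y), measurable_find h1 fun n => ?_, fun y => Nat.find_spec (h1 y)⟩
  have h2 : {y | ∀ v, p y v ≤ C * ‖F n v‖ ∧ ‖F n v‖ ≤ C * p y v} =
      ⋂ i, ({y | p y (u i) ≤ C * ‖F n (u i)‖} ∩ {y | ‖F n (u i)‖ ≤ C * p y (u i)}) := by
    ext y
    simp only [mem_setOf_eq, mem_iInter, mem_inter_iff]
    refine ⟨fun h i => h _, fun h v => ?_⟩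
    have hc := (hp y).continuous
    refine hu.induction_on v ?_ h
    have h3 : IsClosed {v | p y v ≤ C * ‖F n v‖} := isClosed_le hc (by fun_prop)
    have h4 : IsClosed {v | ‖F n v‖ ≤ C * p y v} := isClosed_le (by fun_prop) (by fun_prop)
    exact h3.inter h4
  rw [h2]
  exact MeasurableSet.iInter fun i => (measurableSet_le (hm _) measurable_const).inter
    (measurableSet_le measurable_const ((hm _).const_mul C))

end Pool.Agent.P.MP_d483fb_an.Z.Norm
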